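import Pool.Agent.Lib.MP_ec946a_Monotone.Final

/-!
# 2-to-1 games with perfect completeness: an exponential lower bound for monotone circuits

For every soundness `0 < δ ≤ 1/2`, monotone real circuits that separate the 2-to-1 games of value
`1` from those of value at most `δ` have exponentially many gates.

The hard games of small value are copies, placed by an index gadget, of the sparse locally
consistent games of Lib.MP_ec946a_Games; the satisfiable games consist of all edges
satisfied by a fixed labeling. The proof follows a path from the output of the circuit to an input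
variable, keeping a large structured rectangle and a locally consistent partial labeling.
-/

set_option autoImplicit false

namespace Pool.Agent.Results.MP_ec946a_lc.MonotoneCircuits

open Pool.Agent.MP_ec946a

theorem result : ∀ δ : ℝ, 0 < δ → δ ≤ 1 / 2 →
    ∃ (q : ℕ) (γ : ℝ), (q : ℝ) ≤ 51 * (1 / δ) * Real.log (1 / δ) ∧ 0 < γ ∧
      ∀ᶠ N : ℕ in Filter.atTop, ∀ (s : ℕ) (f : Set (Constraint N q) → ℝ),
        HasCircuit s f → Separates N q δ f →
          Real.exp (γ * ((N : ℝ) / Real.log N) ^ ((1 : ℝ) / 3)) < s :=
  fun δ hδ hδ2 => Mono.main_bound δ hδ hδ2

end Pool.Agent.Results.MP_ec946a_lc.MonotoneCircuits
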