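import Pool.Agent.Lib.SF.Stat

/-!
# 2-to-1 games with perfect completeness: hardness with value `17/20`

An explicit reduction from label cover (projection games) to 2-to-1 games with `2 ^ 128` labels, all
fibres having `0` or `2` elements.  A label cover instance `I` of value `1` goes to a game of value
`1`, an instance of value at most `2 ^ (-230)` to a game of value at most `17/20`, and the size of
the game is a polynomial in the size of `I`, for fixed alphabets.

By the PCP theorem and the parallel repetition theorem (not formalised here) it is NP-hard to
separate label cover instances of value `1` from those of value at most `2 ^ (-230)`, for suitable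
fixed alphabets `A`, `B`; hence `Gap_q(1, 17/20)` is NP-hard for 2-to-1 games with `q = 2 ^ 128`.
-/

set_option autoImplicit false

namespace Pool.Agent.Results.MP_ec946a_lc.PerfectCompleteness

open Pool.Agent.MP_ec946a

theorem result (A B : Type) [Finite A] [Finite B] [Nonempty A] :
    ∃ k C : ℕ, ∀ I : LR.LabelCover A B,
      (∀ e b, Nat.card {a // (SF.Stat.red I).proj e a = b} = 0 ∨
        Nat.card {a // (SF.Stat.red I).proj e a = b} = 2) ∧
      Nat.card (SF.Stat.red I).E = C * Nat.card I.E ^ k ∧
      (I.value = 1 → (SF.Stat.red I).value = 1) ∧
      (I.value ≤ 1 / 2 ^ 230 → (SF.Stat.red I).value ≤ 17 / 20) :=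
  SF.Stat.main A B

end Pool.Agent.Results.MP_ec946a_lc.PerfectCompleteness
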