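import Pool.Agent.Lib.MP_ec946a_qt.Main

/-!
# 2-to-1 games with perfect completeness: games with a perfect quantum strategy, and the expansion
threshold `1 / √2`

For every soundness there are 2-to-1 games with a perfect quantum strategy (hence accepted by all
levels of the noncommutative hierarchy of semidefinite relaxations) whose value is below it; the
value is at most `2 q ^ (-1 / 12)` for the alphabet size `q`, and all but one singular value of the
graph of the game are at most `1 / √2`.  Conversely, if all but `m` singular values of the graph of
a game with a perfect quantum strategy are at most some `σ < 1 / √2`, the value is bounded below in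
terms of `m` and `σ` only.

The questions of the games are the commuting groups of `k` and of `k - 1` independent Pauli matrices
on `3 k + 10` qubits, the labels are the signs of their elements.  The bound for the value uses the
orthogonality of the Pauli matrices (a bound for the twisted autocorrelation of the labels) and
the list of the labels of a group of `k + 1` independent matrices that fit many of its subgroups.
-/

set_option autoImplicit false

namespace Pool.Agent.Results.MP_ec946a_lc.QuantumThreshold

open Pool.Agent.MP_ec946a

theorem result :
    (∀ k : ℕ, 1 ≤ k → ∃ G : Game (2 ^ k),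
      (∀ e b, Nat.card {a // G.proj e a = b} = 0 ∨ Nat.card {a // G.proj e a = b} = 2) ∧
      (∃ s : G.QuantumStrategy (2 ^ (3 * k + 10)), s.win = 1) ∧
      G.Expands 1 (1 / √2) ∧ G.value ≤ 2 * ((2 ^ k : ℕ) : ℝ) ^ (-(1 / 12) : ℝ)) ∧
    (∀ (q : ℕ) (G : Game q) (d : ℕ) (s : G.QuantumStrategy d), s.win = 1 →
      ∀ (m : ℕ) (σ : ℝ), 0 ≤ σ → G.Expands m σ → 0 ≤ 1 - √2 * σ →
        (1 - √2 * σ) ^ 2 ≤ 72 * m * G.value) :=
  ⟨QT.quantum_gap, fun _ G _ s h _ _ hσ hG hc => QT.quantum_lower G s h hσ hG hc⟩

end Pool.Agent.Results.MP_ec946a_lc.QuantumThreshold
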