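import Pool.Agent.Lib.RH.EveryQ
import Pool.Agent.Lib.RHR.Main

/-!
# 2-to-1 games with perfect completeness: what the basic semidefinite relaxation certifies

If the basic semidefinite relaxation accepts a 2-to-1 game with `q` labels (objective one), the
value of the game is at least `q ^ (-(3 - 2 √2)) / (50000 (1 + log q))`, whatever the graph, and at
least `(1/2 - σ)^2 / m`, whatever the alphabet, if all but `m` singular values of the graph are at
most `σ < 1/2`.  Both thresholds, the exponent `3 - 2 √2` and the singular value `1/2`, are exact,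
and for the same games: for every `q ≥ 1` there is a game with `q` labels, accepted by the
relaxation, all but one of whose singular values are at most `1/2`, of value at most
`4 q ^ (-(3 - 2 √2))`.

The upper bound is a sharp hypercontractive inequality for the operator with the eigenvalues
`2 ^ (-rank)`: for a linear code `R` of strings, let `N (f)` be the mean over the strings `x` of the
squared `L^p` norm of `f` on the coset `x + R`, `p = 1 + 1 / √2`; if `g ≥ 0` and the functions
`h r ≥ 0` (`r` in `R`) depend only on the coordinates where `r` vanishes, then the square of the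
mean over `r` and `x` of `g x * h r x` is at most `N (g)` times the mean over `r` of `N (h r)`.
-/

set_option autoImplicit false

namespace Pool.Agent.Results.MP_ec946a_lc.RelaxationThresholds

open Pool.Agent.MP_ec946a

theorem result :
    (∀ (q n : ℕ) (G : Game q) (s : G.SDPSolution n),
      (s.obj = 1 → (q : ℝ) ^ (-(3 - 2 * √2)) / (50000 * (1 + Real.log q)) ≤ G.value) ∧
      (∀ (m : ℕ) (σ : ℝ), 0 ≤ σ → G.Expands m σ → 0 ≤ s.obj ^ 3 / 2 - σ - √(2 * (1 - s.obj)) →
        (s.obj ^ 3 / 2 - σ - √(2 * (1 - s.obj))) ^ 2 ≤ m * G.value)) ∧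
    (∀ q : ℕ, 1 ≤ q → ∃ G : Game q,
      (∀ k : ℕ, 1 ≤ k → q = 2 ^ k → ∀ e b,
        Nat.card {a // G.proj e a = b} = 0 ∨ Nat.card {a // G.proj e a = b} = 2) ∧
      IsGreatest {r : ℝ | ∃ (n : ℕ) (s : G.SDPSolution n), s.obj = r} 1 ∧
      G.Expands 1 (1 / 2) ∧
      G.value ≤ 4 * (q : ℝ) ^ (-(3 - 2 * √2))) := by
  refine ⟨fun q n G s => ⟨fun h => RHR.value_ge s h, fun m σ hσ hG h =>
    SDA.value_ge_of_expands hσ hG s h⟩, fun q hq => ?_⟩
  by_cases hp : ∃ k : ℕ, 1 ≤ k ∧ q = 2 ^ k
  · obtain ⟨k, hk, rfl⟩ := hp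
    obtain ⟨G, h1, h2, h3, h4⟩ := NG.ngap k hk
    refine ⟨G, fun _ _ _ => h1, h2, h3, h4.trans ?_⟩
    have h5 : (0 : ℝ) ≤ ((2 ^ k : ℕ) : ℝ) ^ (-(3 - 2 * √2)) :=
      Real.rpow_nonneg (Nat.cast_nonneg _) _
    refine mul_le_mul_of_nonneg_right ?_ h5
    calc (2 : ℝ) ^ (2 - √2) ≤ 2 ^ (2 : ℝ) :=
          Real.rpow_le_rpow_of_exponent_le (by norm_num) (by linarith [Real.sqrt_nonneg 2])
      _ = 4 := by
          rw [Real.rpow_two]
          norm_num
  · obtain ⟨G, h1, h2, h3⟩ := RH.every_q q hq
    exact ⟨G, fun k hk h => absurd ⟨k, hk, h⟩ hp, h1, h2, h3⟩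

end Pool.Agent.Results.MP_ec946a_lc.RelaxationThresholds
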